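import Pool.Agent.Helper29.AR.Props
import Pool.Agent.Helper77.SR.MinC

/-!
# MP_b55b7c_an, packet AR-MinCL
-/

open scoped ENNReal NNReal InnerProductSpace ComplexOrder
open Filter Topology

attribute [-instance] CStarMatrix.instAlgebra CStarMatrix.instModule CStarMatrix.instSMul
  CStarMatrix.instMulAction CStarMatrix.instDistribMulAction

noncomputable section
namespace RC
universe u

open MinCAux in
theorem minCLP (hLoc : LocMaxP.{u}) (hCov : CoverP.{u}) (hCore : CoreLP.{u})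
    (hPass : PassLP.{u}) (hRk : RkP.{u}) (hMono : QMonoP.{u}) (hLe : CuLeAddP.{u}) :
    MinCLP.{u} := by
  intro M _ _ _ hSR a b m ha hb H ε hε
  have hs : (0 : ℝ) < ε / 16 := by positivity
  -- the cover
  obtain ⟨T, hT⟩ := hCov M M
    (fun X => cfc (ramp (ε / 16) (2 * (ε / 16))) (sq (b * X * a)) -
      ((m - ε / 2 : ℝ) : ℂ) • (1 : M))
    (by
      intro φ
      obtain ⟨X, hX⟩ := hLoc M φ a b m ha hb (by
        intro t ψ₁ ψ₂ σ₁ σ₂ ht0 ht1 h1 h2 _
        have e1 := (H ψ₁ σ₁ h1).2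
        have e2 := (H ψ₂ σ₂ h2).1
        nlinarith [mul_le_mul_of_nonneg_left e1 ht0,
          mul_le_mul_of_nonneg_left e2 (sub_nonneg.2 ht1)]) (ε / 4) (ε / 16) hs (by linarith)
      refine ⟨X, ?_⟩
      rw [map_sub, map_smul, φ.one, Complex.sub_re, smul_eq_mul, mul_one, Complex.ofReal_re]
      linarith)
  -- one element which dominates all of them
  obtain ⟨Y, δ, L, hδ, hBel⟩ := hCore M hSR a b (ε / 16 / 2) (ε / 2) (by positivity)
    (by positivity) T.card (fun i => (T.equivFin.symm i : M))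
  have hθ : (0 : ℝ) < (ε / 16) ^ 2 / 16 := by positivity
  choose S hS hSdim using fun i => hPass M (b * (T.equivFin.symm i : M) * a) (b * Y * a) (L i)
    (ε / 16 / 2) δ ((ε / 16) ^ 2 / 16) (hBel i).1 hδ hθ (hBel i).2.2
  obtain ⟨s', hs', hs'S⟩ := exists_lower S hS
  refine ⟨Y, s', hs', fun φ σ hQ => ?_⟩
  obtain ⟨X, hXT, hXpos⟩ := hT φ
  obtain ⟨i, hi⟩ : ∃ i, (T.equivFin.symm i : M) = X := ⟨T.equivFin ⟨X, hXT⟩, by simp⟩
  have hc : 0 ≤ sq (b * X * a) := star_mul_self_nonneg _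
  have h1 := (hRk M φ σ hQ (sq (b * X * a)) hc (ramp (ε / 16) (2 * (ε / 16))) (GG (ε / 16))
    (ramp_continuous _ _) (GG_continuous _) (ramp_nonneg _ _) (GG_nonneg _)).1
    (ramp_le_one _ _) (fun t ht => GG_zero hs ht)
  rw [cut_eq _ hc.isSelfAdjoint] at h1
  have h2 := hSdim i σ
  rw [hi] at h2
  have hLi := (hBel i).2.1 φ σ hQ
  have h3 : σ.dim (one1 (cut (sq (b * Y * a)) (S i))) ≤ σ.dim (one1 (cut (sq (b * Y * a)) s')) := by
    have hle : cut (sq (b * Y * a)) (S i) ≤ cut (sq (b * Y * a)) s' := by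
      refine cfc_le_cfc' _ _ _ (by fun_prop) (by fun_prop) fun t _ => ?_
      have := hs'S i
      exact max_le_max (by linarith) le_rfl
    have hle1 : one1 (cut (sq (b * Y * a)) (S i)) ≤ one1 (cut (sq (b * Y * a)) s') := by
      have h5 : 0 ≤ one1 (cut (sq (b * Y * a)) s' - cut (sq (b * Y * a)) (S i)) :=
        one1_nonneg (sub_nonneg.2 hle)
      rw [← sub_nonneg]
      exact h5
    refine hMono M σ Unit Unit _ _ (one1_nonneg (cut_nonneg _ _)) (one1_nonneg (cut_nonneg _ _)) ?_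
    have h6 := hLe M Unit (one1 (cut (sq (b * Y * a)) (S i))) (one1 (cut (sq (b * Y * a)) s')) 0
      le_rfl (one1_nonneg (cut_nonneg _ _)) (one1_nonneg (cut_nonneg _ _))
      (by rw [zero_smul, add_zero]; exact hle1)
    rw [cut_zero (one1_nonneg (cut_nonneg _ _))] at h6
    exact h6
  rw [map_sub, map_smul, φ.one, Complex.sub_re, smul_eq_mul, mul_one, Complex.ofReal_re] at hXpos
  linarith

end RC
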